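import Pool.Agent.H99.Bouquet2

open MeasureTheory Filter Topology
open scoped ENNReal NNReal

noncomputable section

namespace Pool.Agent.Results.MP_dbea21_an.Counter

open Pool.Agent.H99.UAlg

def mu : FiniteMeasure Bq := ⟨om 0 + om 1, inferInstance⟩

theorem mu_coe : (mu : Measure Bq) = om 0 + om 1 := rfl

theorem ae_mu {p : Bq → Prop}
    (h : ∀ n, n = 0 ∨ n = 1 → ∀ x : Bq,
      (x.1 n * star (x.1 n) = 1 ∧ ∀ i, i ≠ n → x.1 i = 0) → p x) :
    ∀ᵐ x ∂(mu : Measure Bq), p x := by
  rw [mu_coe, ae_add_measure_iff]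
  exact ⟨(ae_om_on 0).mono (h 0 (by simp)), (ae_om_on 1).mono (h 1 (by simp))⟩

theorem lint_mu {i : ℕ} {ε : ℝ} (hε : 0 < ε) {u : C(Bq, ℂ)} (hu : Sm i ε u) :
    ∫⁻ x, ‖u x‖ₑ ∂(mu : Measure Bq) ≤ ENNReal.ofReal (2 * ε) := by
  rw [mu_coe, lintegral_add_measure, two_mul, ENNReal.ofReal_add hε.le hε.le]
  exact add_le_add (lint_om_le 0 hu) (lint_om_le 1 hu)

theorem aeY : ∀ᵐ x ∂(mu : Measure Bq), OnY x := ae_mu fun _ _ _ hx => onY_of hx

theorem dense_mu : Dense (AAp BA 1 mu : Set (Lp ℂ 1 (mu : Measure Bq))) :=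
  dense_of_Lcl (Lcl_top aeY fun _ => ind_mem_Lcl fun _ hε _ hu => lint_mu hε hu)

theorem int_ind_real (i : ℕ) (ν : Measure Bq) :
    ∫ x, ind i x ∂ν = ((∫ x, ‖x.1 i‖ ^ 2 ∂ν : ℝ) : ℂ) := by
  rw [← integral_complex_ofReal]
  refine integral_congr_ae (Eventually.of_forall fun x => ?_)
  simp [ind, Complex.mul_conj']

theorem E_sub : E BA mu ⊆ {mu} := by
  rintro ν ⟨hac, he⟩
  have hge : ∀ i, (∫ x, ind i x ∂(mu : Measure Bq)).re ≤ (∫ x, ind i x ∂(ν : Measure Bq)).re := by
    intro i
    refine le_of_forall_pos_le_add fun ε hε => ?_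
    obtain ⟨u, hu, hs⟩ := poisson i (ε / 2) (by positivity)
    have h1 := equiv_AA he _ hu
    simp only [ContinuousMap.sub_apply] at h1
    rw [integral_sub (integrable_cm _ _) (integrable_cm _ _),
      integral_sub (integrable_cm _ _) (integrable_cm _ _)] at h1
    have h2 : (∫ x, u x ∂(mu : Measure Bq)).re ≤ ε := by
      have := int_norm_le (by positivity) (lint_mu (by positivity) hs)
      refine (Complex.re_le_norm _).trans ((norm_integral_le_integral_norm _).trans ?_)
      linarith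
    have h3 : 0 ≤ (∫ x, u x ∂(ν : Measure Bq)).re := by
      have := integral_re (integrable_cm u (ν : Measure Bq))
      simp only [RCLike.re_to_complex] at this
      rw [← this]
      refine integral_nonneg_of_ae ?_
      filter_upwards [hac.ae_le aeY] with x hx
      rcases hx i with h0 | h1
      · simp [hs.1 x h0]
      · obtain ⟨p, hp0, hp, -⟩ := hs.2 x h1
        simp [hp, hp0]
    have h4 := congrArg Complex.re h1
    simp only [Complex.sub_re] at h4
    linarith
  have hone : ∀ᵐ x ∂(mu : Measure Bq), ind 0 x + ind 1 x = (1 : C(Bq, ℂ)) x :=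
    ae_mu (by
      rintro n (rfl | rfl) x hx
      · simp only [ind, ContinuousMap.mul_apply, ContinuousMap.star_apply, X_apply, hx.1,
          hx.2 1 (by simp)]
        simp
      · simp only [ind, ContinuousMap.mul_apply, ContinuousMap.star_apply, X_apply, hx.1,
          hx.2 0 (by simp)]
        simp)
  have hsum : ∫ x, ind 0 x ∂(mu : Measure Bq) + ∫ x, ind 1 x ∂(mu : Measure Bq) =
      ∫ x, ind 0 x ∂(ν : Measure Bq) + ∫ x, ind 1 x ∂(ν : Measure Bq) := by
    rw [← integral_add (integrable_cm _ _) (integrable_cm _ _),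
      ← integral_add (integrable_cm _ _) (integrable_cm _ _), integral_congr_ae hone,
      integral_congr_ae (hac.ae_le hone)]
    exact he 1 BA.one_mem
  have hind : ∀ i, ∫ x, ind i x ∂(ν : Measure Bq) = ∫ x, ind i x ∂(mu : Measure Bq) := by
    intro i
    by_cases hi : i = 0 ∨ i = 1
    · have h0 := hge 0
      have h1 := hge 1
      have h2 := congrArg Complex.re hsum
      simp only [int_ind_real, Complex.add_re, Complex.ofReal_re] at h0 h1 h2 ⊢
      rcases hi with rfl | rfl <;> (congr 1; linarith)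
    · have hz : ∀ᵐ x ∂(mu : Measure Bq), ind i x = 0 :=
        ae_mu fun n hn x hx => by
          have : x.1 i = 0 := hx.2 i (by omega)
          simp [ind, this]
      rw [integral_congr_ae hz, integral_congr_ae (hac.ae_le hz)]
      simp
  let T : C(Bq, ℂ) →L[ℂ] ℂ := intL (ν : Measure Bq) - intL (mu : Measure Bq)
  have hT : ∀ f, f ∈ T.ker ↔ ∫ x, f x ∂(ν : Measure Bq) = ∫ x, f x ∂(mu : Measure Bq) :=
    fun f => by simp [T, intL_apply, sub_eq_zero]
  have htop : T.ker = ⊤ := GEN T.isClosed_ker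
    (fun f hf => (hT f).2 (equiv_AA he f hf).symm) (fun i => (hT _).2 (hind i))
    (fun f hf => (hT f).2 (by
      have hz : ∀ᵐ x ∂(mu : Measure Bq), f x = 0 := aeY.mono hf
      rw [integral_congr_ae hz, integral_congr_ae (hac.ae_le hz)]
      simp))
  exact ext_cm fun f => (hT f).1 (htop ▸ Submodule.mem_top)

theorem result : ∃ (S : Type) (_ : TopologicalSpace S) (_ : CompactSpace S) (_ : T2Space S)
    (_ : TopologicalSpace.MetrizableSpace S) (_ : MeasurableSpace S) (_ : BorelSpace S)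
    (A : Subalgebra ℂ C(S, ℂ)) (μ σ : FiniteMeasure S),
    Adm A ∧ L1Dense A μ ∧ σ ∈ K A μ ∧ (∀ ν ∈ K A μ, Le A ν σ) ∧ ¬ WDense A σ := by
  refine ⟨Bq, inferInstance, inferInstance, inferInstance, inferInstance, inferInstance,
    inferInstance, BA, mu, mu, adm_BA, by rw [L1Dense, ← AAp_coe]; exact dense_mu, subset_closure (self_mem_E _ _), ?_, ?_⟩
  · intro ν hν
    have : ν = mu := closure_minimal E_sub isClosed_singleton hν
    subst this
    exact fun _ _ => le_rfl
  · intro htop
    obtain ⟨h0, -, hh0⟩ := exists_density mu (lam 0)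
      ((lam_ac 0).trans (Measure.le_add_right le_rfl).absolutelyContinuous)
    obtain ⟨h1, -, hh1⟩ := exists_density mu (lam 1)
      ((lam_ac 1).trans (Measure.le_add_left le_rfl).absolutelyContinuous)
    have hF : ContinuousMap.toLp ∞ (mu : Measure Bq) ℂ (ind 0) ∈ wclos mu (AAp BA ∞ mu) := by
      show _ ∈ wcl mu _
      rw [AAp_coe, htop]
      trivial
    have := (mem_wclos_iff _ _ _).1 hF (h0 - h1) (by
      rintro _ ⟨g, hg, rfl⟩
      rw [map_sub]
      exact sub_eq_zero.2 ((hh0 g).trans ((int_lam_AA 0 1 g hg).trans (hh1 g).symm)))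
    rw [map_sub, hh0, hh1, int_ind_self, int_ind_ne (by simp)] at this
    simp at this

end Pool.Agent.Results.MP_dbea21_an.Counter
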